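import Pool.Agent.helper20.HP.S0
import Pool.Agent.helper65.HP.B4
import Pool.Agent.helper6.HP.B9

/-!
Module B10 of the project MP_5ae64c_pr: the expectation estimate X2.
-/

open scoped BigOperators Topology
open Filter MeasureTheory

namespace Pool.Agent.helper20.HP

variable {V : Type} [Fintype V] [DecidableEq V] {K : HW V} {θ : ℝ} {h : ℕ}

omit [Fintype V] [DecidableEq V] in
theorem B10_getD (x : V) (l' l'' : List V) :
    (x :: (l' ++ l'')).getD l'.length x = lst x l' := by
  induction l' generalizing x with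
  | nil => rfl
  | cons a l ih =>
    have h1 := ih a
    have h2 : lst x (a :: l) = lst a l := by
      unfold lst
      cases l <;> simp [List.getLastD]
    rw [h2, ← h1]
    simp only [List.cons_append, List.length_cons, List.getD_cons_succ]
    rw [List.getD_eq_getElem?_getD, List.getD_eq_getElem?_getD]
    have h3 : l.length < (a :: (l ++ l'')).length := by simp
    rw [List.getElem?_eq_getElem h3]
    simp

/-- union over the hitting time, with the remaining word -/
theorem B10_hit (A : List V) (m : ℕ) (w : V) (f : List V → ℝ) (hf : ∀ l, 0 ≤ f l) :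
    W K m w (fun F => f F * ind (∃ y ∈ F, y ∈ A))
      ≤ ∑ j ∈ Finset.range m, W K (j + 1) w (fun l1 => ind (lst w l1 ∈ A) *
          W K (m - (j + 1)) (lst w l1) (fun l2 => f (l1 ++ l2))) := by
  have h1 : W K m w (fun F => f F * ind (∃ y ∈ F, y ∈ A))
      ≤ W K m w (fun F => ∑ j ∈ Finset.range m, f F * ind (lst w (F.take (j + 1)) ∈ A)) := by
    refine W_mono K _ _ fun F hF => ?_
    rw [← Finset.mul_sum]
    refine mul_le_mul_of_nonneg_left ?_ (hf F)
    by_cases hex : ∃ y ∈ F, y ∈ A
    · rw [ind_true hex]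
      obtain ⟨y, hy, hyA⟩ := hex
      obtain ⟨s, t, rfl⟩ := List.append_of_mem hy
      have hs : s.length ∈ Finset.range m := by
        rw [Finset.mem_range, ← hF]
        simp
      have h2 : ind (lst w ((s ++ y :: t).take (s.length + 1)) ∈ A) = 1 := by
        apply ind_true
        have h3 : (s ++ y :: t).take (s.length + 1) = s ++ [y] := by
          simp [List.take_append]
        rw [h3, lst_concat]
        exact hyA
      rw [← h2]
      exact Finset.single_le_sum (f := fun j => ind (lst w ((s ++ y :: t).take (j + 1)) ∈ A))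
        (fun j _ => ind_nonneg _) hs
    · rw [ind_false hex]
      exact Finset.sum_nonneg fun j _ => ind_nonneg _
  rw [W_sum] at h1
  refine h1.trans (Finset.sum_le_sum fun j hj => ?_)
  rw [Finset.mem_range] at hj
  apply le_of_eq
  have h4 : m = (j + 1) + (m - (j + 1)) := by omega
  conv_lhs => rw [h4]
  rw [W_split K (j + 1) (m - (j + 1)) w]
  refine W_congr K _ _ fun l1 hl1 => ?_
  rw [← W_mul_left]
  refine W_congr K _ _ fun l2 _ => ?_
  have h5 : (l1 ++ l2).take (j + 1) = l1 := by rw [← hl1]; exact List.take_left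
  rw [h5, mul_comm]

/-- two step weight -/
noncomputable def B10_phi (K : HW V) (A : List V) (s v : ℕ) (z : V) : ℝ :=
  ∑ y, K.pt s z y * (ind (y ∈ A) * K.pt v y z)

theorem B10_phi_nonneg (A : List V) (s v : ℕ) (z : V) : 0 ≤ B10_phi K A s v z :=
  Finset.sum_nonneg fun _ _ => mul_nonneg (pt_nonneg K _ _ _) (mul_nonneg (ind_nonneg _) (pt_nonneg K _ _ _))

theorem B10_ind_sum_le (A : List V) : ∑ y : V, ind (y ∈ A) ≤ (A.length : ℝ) := by
  classical
  have h1 : ∑ y : V, ind (y ∈ A) = (((Finset.univ.filter (fun y : V => y ∈ A)).card : ℕ) : ℝ) := by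
    rw [Finset.card_filter]
    push_cast
    refine Finset.sum_congr rfl fun s _ => ?_
    by_cases hp : s ∈ A
    · rw [ind_true hp, if_pos hp]
    · rw [ind_false hp, if_neg hp]
  rw [h1]
  have h2 : Finset.univ.filter (fun y : V => y ∈ A) = A.toFinset := by
    ext y
    simp
  rw [h2]
  exact_mod_cast List.toFinset_card_le A

theorem B10_phi_sum (A : List V) (s v : ℕ) :
    ∑ z, B10_phi K A s v z ≤ (A.length : ℝ) * cc K (s + v) := by
  unfold B10_phi
  rw [Finset.sum_comm]
  have h1 : ∀ y : V, ∑ z, K.pt s z y * (ind (y ∈ A) * K.pt v y z) = ind (y ∈ A) * cc K (s + v) := by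
    intro y
    have h2 : cc K (s + v) = ∑ z, K.pt s y z * K.pt v z y := by
      rw [← cc_eq K (s + v) y, pt_add]
    rw [h2, Finset.mul_sum]
    refine Finset.sum_congr rfl fun z _ => ?_
    rw [pt_symm K s z y, pt_symm K v y z]
    ring
  rw [Finset.sum_congr rfl fun y _ => h1 y, ← Finset.sum_mul]
  exact mul_le_mul_of_nonneg_right (B10_ind_sum_le A) (cc_nonneg K _)

/-- the bound for a walk started at `w` -/
noncomputable def B10_Psi (K : HW V) (A : List V) (T : ℕ) (w : V) : ℝ :=
  ∑ j ∈ Finset.range T, ∑ a ∈ Finset.range (j + 1 + 1), ∑ v ∈ Finset.range (T - (j + 1) + 1),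
    ∑ z, K.pt a w z * B10_phi K A (j + 1 - a) v z

theorem B10_Psi_nonneg (A : List V) (T : ℕ) (w : V) : 0 ≤ B10_Psi K A T w :=
  Finset.sum_nonneg fun _ _ => Finset.sum_nonneg fun _ _ => Finset.sum_nonneg fun _ _ =>
    Finset.sum_nonneg fun _ _ => mul_nonneg (pt_nonneg K _ _ _) (B10_phi_nonneg _ _ _ _)

theorem B10_CZ_nonneg (θ : ℝ) : 0 ≤ CZ θ := sq_nonneg _

theorem B10_start (hP : Par K θ h) (T : ℕ) (hT : 4 * T ≤ Nat.sqrt (Fintype.card V)) (w : V)
    (q : ℕ) (A : List V) :
    ∑ m ∈ Finset.range (T + 1), W K m w (fun F => ind (lel w F = q) * ind (∃ y ∈ F, y ∈ A))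
      ≤ CZ θ * B10_Psi K A T w := by
  have h1 : ∑ m ∈ Finset.range (T + 1), W K m w (fun F => ind (lel w F = q) * ind (∃ y ∈ F, y ∈ A))
      ≤ ∑ m ∈ Finset.range (T + 1), ∑ j ∈ Finset.range m,
          W K (j + 1) w (fun l1 => ind (lst w l1 ∈ A) *
            W K (m - (j + 1)) (lst w l1) (fun l2 => ind (lel w (l1 ++ l2) = q))) :=
    Finset.sum_le_sum fun m _ => B10_hit A m w (fun F => ind (lel w F = q)) fun _ => ind_nonneg _
  have h2 : ∑ m ∈ Finset.range (T + 1), ∑ j ∈ Finset.range m,
          W K (j + 1) w (fun l1 => ind (lst w l1 ∈ A) *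
            W K (m - (j + 1)) (lst w l1) (fun l2 => ind (lel w (l1 ++ l2) = q)))
      = ∑ j ∈ Finset.range T, ∑ v ∈ Finset.range (T - (j + 1) + 1),
          W K (j + 1) w (fun l1 => ind (lst w l1 ∈ A) *
            W K v (lst w l1) (fun l2 => ind (lel w (l1 ++ l2) = q))) := by
    rw [Finset.sum_sigma', Finset.sum_sigma']
    refine Finset.sum_bij' (fun p _ => ⟨p.2, p.1 - (p.2 + 1)⟩) (fun p _ => ⟨p.2 + (p.1 + 1), p.1⟩)
      ?_ ?_ ?_ ?_ ?_
    · rintro ⟨m, j⟩ hp
      simp only [Finset.mem_sigma, Finset.mem_range] at hp ⊢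
      omega
    · rintro ⟨j, v⟩ hp
      simp only [Finset.mem_sigma, Finset.mem_range] at hp ⊢
      omega
    · rintro ⟨m, j⟩ hp
      simp only [Finset.mem_sigma, Finset.mem_range] at hp
      simp only [Sigma.mk.injEq, heq_eq_eq, and_true]
      omega
    · rintro ⟨j, v⟩ hp
      simp only [Finset.mem_sigma, Finset.mem_range] at hp
      simp only [Sigma.mk.injEq, heq_eq_eq, true_and]
      omega
    · rintro ⟨m, j⟩ hp
      rfl
  rw [h2] at h1
  refine h1.trans ?_
  unfold B10_Psi
  rw [Finset.mul_sum]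
  refine Finset.sum_le_sum fun j hj => ?_
  rw [Finset.mem_range] at hj
  -- the terms with hitting time j + 1
  have h3 : ∑ v ∈ Finset.range (T - (j + 1) + 1),
          W K (j + 1) w (fun l1 => ind (lst w l1 ∈ A) *
            W K v (lst w l1) (fun l2 => ind (lel w (l1 ++ l2) = q)))
      ≤ W K (j + 1) w (fun l1 => ∑ a ∈ Finset.range (j + 1 + 1),
          ∑ v ∈ Finset.range (T - (j + 1) + 1),
            CZ θ * (ind (lst w l1 ∈ A) * K.pt v (lst w l1) ((w :: l1).getD a w))) := by
    rw [← W_sum]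
    refine W_mono K _ _ fun l1 hl1 => ?_
    rw [← Finset.mul_sum]
    have h4 := X0 hP q (T - (j + 1)) (by omega) w l1
    rw [hl1] at h4
    refine (mul_le_mul_of_nonneg_left h4 (ind_nonneg (lst w l1 ∈ A))).trans (le_of_eq ?_)
    simp only [Finset.mul_sum]
    refine Finset.sum_congr rfl fun a _ => Finset.sum_congr rfl fun v _ => ?_
    ring
  refine h3.trans (le_of_eq ?_)
  rw [W_sum, Finset.mul_sum]
  refine Finset.sum_congr rfl fun a ha => ?_
  rw [Finset.mem_range] at ha
  rw [W_sum, Finset.mul_sum]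
  refine Finset.sum_congr rfl fun v _ => ?_
  rw [W_mul_left]
  congr 1
  -- one term
  rw [← W_lst]
  have h5 : j + 1 = a + (j + 1 - a) := by omega
  conv_lhs => rw [h5]
  rw [W_split K a (j + 1 - a) w]
  refine W_congr K _ _ fun l' hl' => ?_
  unfold B10_phi
  rw [← W_lst]
  refine W_congr K _ _ fun l'' _ => ?_
  rw [lst_append, ← hl', B10_getD]

theorem B10_Psi_sum (hP : Par K θ h) (T : ℕ) (hT : 4 * T ≤ Nat.sqrt (Fintype.card V)) (A : List V) :
    ∑ w, B10_Psi K A T w ≤ (T : ℝ) * ((A.length : ℝ) * θ) := by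
  unfold B10_Psi
  rw [Finset.sum_comm]
  have h1 : ∀ j ∈ Finset.range T, ∑ w, ∑ a ∈ Finset.range (j + 1 + 1),
      ∑ v ∈ Finset.range (T - (j + 1) + 1), ∑ z, K.pt a w z * B10_phi K A (j + 1 - a) v z
      ≤ (A.length : ℝ) * θ := by
    intro j hj
    rw [Finset.mem_range] at hj
    rw [Finset.sum_comm]
    have h2 : ∀ a ∈ Finset.range (j + 1 + 1), ∑ w, ∑ v ∈ Finset.range (T - (j + 1) + 1),
        ∑ z, K.pt a w z * B10_phi K A (j + 1 - a) v z
        ≤ ∑ v ∈ Finset.range (T - (j + 1) + 1), (A.length : ℝ) * cc K (j + 1 - a + v) := by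
      intro a _
      rw [Finset.sum_comm]
      refine Finset.sum_le_sum fun v _ => ?_
      rw [Finset.sum_comm]
      have h3 : ∀ z : V, ∑ w, K.pt a w z * B10_phi K A (j + 1 - a) v z
          = B10_phi K A (j + 1 - a) v z := by
        intro z
        rw [← Finset.sum_mul]
        have h4 : ∑ w, K.pt a w z = 1 := by
          rw [← pt_sum K a z]
          exact Finset.sum_congr rfl fun w _ => pt_symm K a w z
        rw [h4, one_mul]
      rw [Finset.sum_congr rfl fun z _ => h3 z]
      exact B10_phi_sum A _ v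
    refine (Finset.sum_le_sum h2).trans ?_
    have h5 : ∑ a ∈ Finset.range (j + 1 + 1), ∑ v ∈ Finset.range (T - (j + 1) + 1),
        (A.length : ℝ) * cc K (j + 1 - a + v)
        = (A.length : ℝ) * ∑ a ∈ Finset.range (j + 1 + 1), ∑ v ∈ Finset.range (T - (j + 1) + 1),
          cc K (a + v) := by
      rw [← Finset.sum_range_reflect (fun a => ∑ v ∈ Finset.range (T - (j + 1) + 1),
          cc K (a + v)) (j + 1 + 1), Finset.mul_sum]
      refine Finset.sum_congr rfl fun a _ => ?_
      rw [Finset.mul_sum]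
      refine Finset.sum_congr rfl fun v _ => ?_
      congr 2
    rw [h5]
    refine mul_le_mul_of_nonneg_left ?_ (by positivity)
    apply cc_double_le hP
    omega
  refine (Finset.sum_le_sum h1).trans (le_of_eq ?_)
  rw [Finset.sum_const, Finset.card_range, nsmul_eq_mul]

/-- functional of the word for the mass transport -/
noncomputable def B10_f (g : ℕ) : List V → ℝ
  | [] => 0
  | x :: l => ind (lel x l = g)

omit [Fintype V] in
theorem B10_f_inv (g : ℕ) (σ : Equiv.Perm V) (l : List V) :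
    B10_f g (l.map σ) = B10_f g l := by
  cases l with
  | nil => rfl
  | cons x l =>
    simp only [List.map_cons, B10_f]
    rw [lel_map]

theorem B10_transport (u g : ℕ) (Ψ : V → ℝ) (x0 : V) :
    ∑ w, W K u w (fun R => ind (lel w R = g) * Ψ (lst w R))
      = (∑ z, Ψ z) * W K u x0 (fun R => ind (lel x0 R = g)) := by
  have h1 : ∀ w, W K u w (fun R => ind (lel w R = g) * Ψ (lst w R))
      = ∑ z, Ψ z * W K u w (fun R => ind ((w :: R).getD u w = z) * B10_f g (w :: R)) := by
    intro w
    have h2 : ∀ z, Ψ z * W K u w (fun R => ind ((w :: R).getD u w = z) * B10_f g (w :: R))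
        = W K u w (fun R => Ψ z * (ind ((w :: R).getD u w = z) * B10_f g (w :: R))) := by
      intro z
      rw [W_mul_left]
    rw [Finset.sum_congr rfl fun z _ => h2 z, ← W_sum]
    refine W_congr K _ _ fun R hR => ?_
    have h3 : (w :: R).getD u w = lst w R := by
      have := B10_getD w R []
      rw [List.append_nil, hR] at this
      exact this
    rw [h3]
    rw [Finset.sum_eq_single (lst w R)]
    · rw [ind_true rfl, one_mul, mul_comm]
      rfl
    · intro z _ hz
      rw [ind_false (fun h => hz h.symm)]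
      ring
    · intro h
      exact absurd (Finset.mem_univ _) h
  rw [Finset.sum_congr rfl fun w _ => h1 w, Finset.sum_comm, Finset.sum_mul]
  refine Finset.sum_congr rfl fun z _ => ?_
  rw [← Finset.mul_sum]
  congr 1
  exact W_mt K u u le_rfl (B10_f g) (fun σ _ l => B10_f_inv g σ l) z x0

/-- X2 : prehistory of 2h steps, then R of length u with lel R = g, then F of length m, lel F = q, F hits A
(for fixed j the law of X_c given x0 is ≤ 3/(2n) times counting measure; then mass transport `W_mt`/homogeneity: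
∑_z W u z (ind (lel R = g) φ(lst R)) = P(lel = g) ∑_w φ(w)) -/
theorem X2 (hP : Par K θ h) (T U g : ℕ) (hT : 4 * T ≤ Nat.sqrt (Fintype.card V))
    (hU : 4 * U ≤ Nat.sqrt (Fintype.card V)) (x0 : V) (q : List V → ℕ) (A : List V) :
    ∑ u ∈ Finset.range (U + 1), ∑ m ∈ Finset.range (T + 1), W K (2 * h) x0 (fun B =>
      W K u (lst x0 B) (fun R => ind (lel (lst x0 B) R = g) *
        W K m (lst (lst x0 B) R) (fun F => ind (lel (lst (lst x0 B) R) F = q B) *
          ind (∃ y ∈ F, y ∈ A))))
      ≤ CZ θ ^ 2 * θ * (T * A.length * (3 / (2 * (Fintype.card V : ℝ)))) := by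
  have hn : (0 : ℝ) < (Fintype.card V : ℝ) := by exact_mod_cast hP.card_pos
  have hΨ := B10_Psi_nonneg (K := K) A T
  have h1 : ∀ u ∈ Finset.range (U + 1), ∑ m ∈ Finset.range (T + 1), W K (2 * h) x0 (fun B =>
      W K u (lst x0 B) (fun R => ind (lel (lst x0 B) R = g) *
        W K m (lst (lst x0 B) R) (fun F => ind (lel (lst (lst x0 B) R) F = q B) *
          ind (∃ y ∈ F, y ∈ A))))
      ≤ (CZ θ * (3 / (2 * (Fintype.card V : ℝ))) * ∑ z, B10_Psi K A T z)
          * W K u x0 (fun R => ind (lel x0 R = g)) := by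
    intro u _
    have h2 : ∑ m ∈ Finset.range (T + 1), W K (2 * h) x0 (fun B =>
      W K u (lst x0 B) (fun R => ind (lel (lst x0 B) R = g) *
        W K m (lst (lst x0 B) R) (fun F => ind (lel (lst (lst x0 B) R) F = q B) *
          ind (∃ y ∈ F, y ∈ A))))
        ≤ W K (2 * h) x0 (fun B => W K u (lst x0 B) (fun R => ind (lel (lst x0 B) R = g) *
            (CZ θ * B10_Psi K A T (lst (lst x0 B) R)))) := by
      rw [← W_sum]
      refine W_mono K _ _ fun B _ => ?_
      rw [← W_sum]
      refine W_mono K _ _ fun R _ => ?_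
      rw [← Finset.mul_sum]
      exact mul_le_mul_of_nonneg_left (B10_start hP T hT _ (q B) A) (ind_nonneg _)
    refine h2.trans ?_
    have h3 : W K (2 * h) x0 (fun B => W K u (lst x0 B) (fun R => ind (lel (lst x0 B) R = g) *
            (CZ θ * B10_Psi K A T (lst (lst x0 B) R))))
        = ∑ w, K.pt (2 * h) x0 w * W K u w (fun R => ind (lel w R = g) *
            (CZ θ * B10_Psi K A T (lst w R))) :=
      W_lst K (2 * h) x0 (fun w => W K u w (fun R => ind (lel w R = g) *
            (CZ θ * B10_Psi K A T (lst w R))))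
    rw [h3]
    have h4 : ∀ w ∈ (Finset.univ : Finset V), K.pt (2 * h) x0 w * W K u w (fun R => ind (lel w R = g) *
            (CZ θ * B10_Psi K A T (lst w R)))
        ≤ (3 / (2 * (Fintype.card V : ℝ))) * W K u w (fun R => ind (lel w R = g) *
            (CZ θ * B10_Psi K A T (lst w R))) := by
      intro w _
      refine mul_le_mul_of_nonneg_right (hP.mix (2 * h) (by omega) x0 w) ?_
      exact W_nonneg K _ _ fun R _ => mul_nonneg (ind_nonneg _)
        (mul_nonneg (B10_CZ_nonneg θ) (hΨ _))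
    refine (Finset.sum_le_sum h4).trans (le_of_eq ?_)
    rw [← Finset.mul_sum, B10_transport u g (fun w => CZ θ * B10_Psi K A T w) x0, ← Finset.mul_sum]
    ring
  refine (Finset.sum_le_sum h1).trans ?_
  rw [← Finset.mul_sum]
  have h5 : ∑ u ∈ Finset.range (U + 1), W K u x0 (fun R => ind (lel x0 R = g)) ≤ CZ θ :=
    Zq_le hP U g x0 (by omega)
  have h6 := B10_Psi_sum hP T hT A
  have h7 : 0 ≤ CZ θ * (3 / (2 * (Fintype.card V : ℝ))) :=
    mul_nonneg (B10_CZ_nonneg θ) (by positivity)
  have h8 : 0 ≤ ∑ z, B10_Psi K A T z := Finset.sum_nonneg fun z _ => hΨ z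
  calc (CZ θ * (3 / (2 * (Fintype.card V : ℝ))) * ∑ z, B10_Psi K A T z)
        * ∑ u ∈ Finset.range (U + 1), W K u x0 (fun R => ind (lel x0 R = g))
      ≤ (CZ θ * (3 / (2 * (Fintype.card V : ℝ))) * ∑ z, B10_Psi K A T z) * CZ θ :=
        mul_le_mul_of_nonneg_left h5 (mul_nonneg h7 h8)
    _ ≤ (CZ θ * (3 / (2 * (Fintype.card V : ℝ))) * ((T : ℝ) * ((A.length : ℝ) * θ))) * CZ θ :=
        mul_le_mul_of_nonneg_right (mul_le_mul_of_nonneg_left h6 h7) (B10_CZ_nonneg θ)
    _ = CZ θ ^ 2 * θ * (T * A.length * (3 / (2 * (Fintype.card V : ℝ)))) := by ring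

end Pool.Agent.helper20.HP
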