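import Pool.Agent.helper20.HP.S0
import Pool.Agent.helper43.HP.B1

/-!
Module B2 of the project MP_5ae64c_pr: range cuts inside a walk.
-/

open scoped BigOperators Topology
open Filter MeasureTheory

namespace Pool.Agent.helper20.HP

variable {V : Type} [Fintype V] [DecidableEq V] {K : HW V} {θ : ℝ} {h : ℕ}

theorem B2_W_comm (j k : ℕ) (x y : V) (f : List V → List V → ℝ) :
    W K j x (fun l => W K k y (fun l' => f l l'))
      = W K k y (fun l' => W K j x (fun l => f l l')) := by
  induction j generalizing x f with
  | zero => simp only [W]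
  | succ j ih =>
    rw [W_succ]
    have h1 : (fun l' => W K (j + 1) x (fun l => f l l'))
        = fun l' => ∑ z, K.p x z * W K j z (fun l => f (z :: l) l') := by
      funext l'
      rw [W_succ]
    rw [h1, W_sum]
    refine Finset.sum_congr rfl fun z _ => ?_
    rw [W_mul_left, ih]

/-- the functional of the word used for the cut probability -/
noncomputable def B2_f (K : HW V) (S : ℕ) : List V → ℝ
  | [] => 0
  | x :: l => W K S (lst x l) (fun l' => ind (∀ y ∈ l', y ∉ x :: l))

theorem B2_f_inv (S : ℕ) (σ : Equiv.Perm V) (hσ : ∀ u v, K.p (σ u) (σ v) = K.p u v) (l : List V) :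
    B2_f K S (l.map σ) = B2_f K S l := by
  cases l with
  | nil => rfl
  | cons x l =>
    simp only [List.map_cons, B2_f]
    rw [lst_map, W_map K σ hσ]
    refine W_congr K _ _ fun l' _ => ?_
    apply ind_congr
    constructor
    · intro h y hy hy2
      refine h (σ y) (List.mem_map_of_mem hy) ?_
      rw [← List.map_cons]
      exact List.mem_map_of_mem hy2
    · intro h y hy hy2
      rw [← List.map_cons] at hy2
      rw [List.mem_map] at hy hy2
      obtain ⟨a, ha, rfl⟩ := hy
      obtain ⟨b, hb, hab⟩ := hy2
      have := σ.injective hab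
      subst this
      exact h b ha hb

theorem B2_f_rev (S : ℕ) (x : V) (l : List V) :
    B2_f K S (x :: l).reverse = W K S x (fun l' => ind (∀ y ∈ l', y ∉ x :: l)) := by
  have hmem : ∀ y, y ∈ l.reverse ++ [x] ↔ y ∈ x :: l := by
    intro y
    rw [← List.reverse_cons, List.mem_reverse]
  rw [List.reverse_cons]
  cases hr : l.reverse with
  | nil =>
    have hl : l = [] := by simpa using hr
    subst hl
    simp only [List.nil_append, B2_f, lst_nil]
  | cons u m =>
    rw [hr] at hmem
    simp only [List.cons_append, B2_f, lst_concat]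
    refine W_congr K _ _ fun l' _ => ?_
    apply ind_congr
    constructor
    · intro h y hy hy2
      exact h y hy (by rw [← List.cons_append, hmem]; exact hy2)
    · intro h y hy hy2
      rw [← List.cons_append, hmem] at hy2
      exact h y hy hy2

/-- P(X(a,a+S] ∩ X[0,a] = ∅) = Rc S a (reverse the past: homogeneity, reversal) -/
theorem cut_prob (a S : ℕ) (x : V) :
    W K a x (fun l => W K S (lst x l) (fun l' => ind (∀ y ∈ l', y ∉ x :: l))) = Rc K S a x := by
  have h1 : ∑ z, W K a z (fun l => B2_f K S (z :: l))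
      = ∑ z, W K a z (fun l => B2_f K S (z :: l).reverse) := W_rev K a (B2_f K S)
  have h2 : ∀ z, W K a z (fun l => B2_f K S (z :: l)) = W K a x (fun l => B2_f K S (x :: l)) :=
    fun z => W_inv K a (B2_f K S) (fun σ hσ l => B2_f_inv S σ hσ l) z x
  have h3 : ∀ z, W K a z (fun l => B2_f K S (z :: l).reverse) = Rc K S a x := by
    intro z
    have : (fun l => B2_f K S (z :: l).reverse)
        = fun l => W K S z (fun l' => ind (∀ y ∈ l', y ∉ z :: l)) := by
      funext l
      exact B2_f_rev S z l
    rw [this, B2_W_comm]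
    exact Rc_inv S a z x
  simp only [h2, h3, Finset.sum_const, nsmul_eq_mul] at h1
  have hc : ((Finset.univ : Finset V).card : ℝ) ≠ 0 := by
    have : 0 < (Finset.univ : Finset V).card := Finset.card_pos.mpr ⟨x, Finset.mem_univ x⟩
    positivity
  exact mul_left_cancel₀ hc h1

/-- two futures: independent walks F1 (length S1), F2 (length S2) from X_a both avoid X[0,a];
Cauchy-Schwarz: probability ≥ (Rc (max S1 S2) a)^2 -/
theorem cut_prob2 (a S : ℕ) (x : V) :
    (Rc K S a x) ^ 2 ≤ W K a x (fun l => W K S (lst x l) (fun l1 => ind (∀ y ∈ l1, y ∉ x :: l)) *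
      W K S (lst x l) (fun l2 => ind (∀ y ∈ l2, y ∉ x :: l))) := by
  set g : List V → ℝ := fun l => W K S (lst x l) (fun l1 => ind (∀ y ∈ l1, y ∉ x :: l)) with hg
  set c := Rc K S a x with hc
  have h1 : W K a x g = c := cut_prob a S x
  have h2 : 0 ≤ W K a x (fun l => (g l - c) ^ 2) := W_nonneg K _ _ fun l _ => sq_nonneg _
  have h3 : (fun l => (g l - c) ^ 2) = fun l => (g l * g l - (2 * c) * g l) + c ^ 2 := by
    funext l; ring
  rw [h3, W_add, W_sub, W_mul_left, W_const, h1] at h2
  have h4 : W K a x (fun l => g l * g l) = W K a x (fun l => W K S (lst x l) (fun l1 => ind (∀ y ∈ l1, y ∉ x :: l)) *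
      W K S (lst x l) (fun l2 => ind (∀ y ∈ l2, y ∉ x :: l))) := rfl
  rw [← h4]
  nlinarith

omit [Fintype V] [DecidableEq V] in
theorem B2_ind_all_ge (l' A : List V) (B : List V) :
    ind (∀ y ∈ l', y ∉ B) - ind (∃ y ∈ l', y ∈ A) ≤ ind (∀ y ∈ l', y ∉ A ∧ y ∉ B) := by
  by_cases h1 : ∃ y ∈ l', y ∈ A
  · rw [ind_true h1]
    have := ind_le_one (∀ y ∈ l', y ∉ B)
    have := ind_nonneg (∀ y ∈ l', y ∉ A ∧ y ∉ B)
    linarith
  · rw [ind_false h1, sub_zero]
    apply ind_mono
    intro h y hy
    exact ⟨fun hA => h1 ⟨y, hy, hA⟩, h y hy⟩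

/-- probability that a word of length `H` hits the list `A`, bounded by the sum over the times -/
theorem B2_hit (H : ℕ) (A : List V) : ∀ (x : V),
    W K H x (fun l' => ind (∃ y ∈ l', y ∈ A))
      ≤ ∑ j ∈ Finset.range H, W K (j + 1) x (fun l => ind (lst x l ∈ A)) := by
  induction H with
  | zero =>
    intro x
    rw [W_zero]
    simp [ind]
  | succ H ih =>
    intro x
    rw [W_split K H 1 x, Finset.sum_range_succ]
    have h1 : W K H x (fun l => W K 1 (lst x l) (fun l' => ind (∃ y ∈ l ++ l', y ∈ A)))
        ≤ W K H x (fun l => ind (∃ y ∈ l, y ∈ A)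
          + W K 1 (lst x l) (fun l' => ind (lst (lst x l) l' ∈ A))) := by
      refine W_mono K _ _ fun l _ => ?_
      have h2 : W K 1 (lst x l) (fun l' => ind (∃ y ∈ l ++ l', y ∈ A))
          ≤ W K 1 (lst x l) (fun l' => ind (∃ y ∈ l, y ∈ A) + ind (lst (lst x l) l' ∈ A)) := by
        refine W_mono K _ _ fun l' hl' => ?_
        refine le_trans ?_ (ind_or_le _ _)
        apply ind_mono
        rintro ⟨y, hy, hyA⟩
        rw [List.mem_append] at hy
        rcases hy with hy | hy
        · exact Or.inl ⟨y, hy, hyA⟩
        · right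
          obtain ⟨z, rfl⟩ : ∃ z, l' = [z] := List.length_eq_one_iff.mp hl'
          have hz : y = z := by simpa using hy
          subst hz
          have : lst (lst x l) ([] ++ [y]) = y := lst_concat _ _ _
          simp only [List.nil_append] at this
          rw [this]
          exact hyA
      rw [W_add, W_const] at h2
      exact h2
    rw [W_add] at h1
    have h3 : W K (H + 1) x (fun l => ind (lst x l ∈ A))
        = W K H x (fun l => W K 1 (lst x l) (fun l' => ind (lst (lst x l) l' ∈ A))) := by
      rw [W_split K H 1 x]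
      refine W_congr K _ _ fun l _ => ?_
      refine W_congr K _ _ fun l' _ => ?_
      rw [lst_append]
    rw [h3]
    linarith [ih x]

/-- starting from a state `x :: ρ`: the walk of length i followed by H steps which avoid the state and the first
i steps -/
theorem cut_state_lower (hP : Par K θ h) (x : V) (ρ : List V) (i H : ℕ)
    (hi : 4 * i ≤ Nat.sqrt (Fintype.card V)) (hH : 4 * H ≤ Nat.sqrt (Fintype.card V)) :
    1 / (2 * θ) - ((ρ.length : ℝ) + 1) * (θ / ((i : ℝ) + 2)) ≤
      W K i x (fun l => W K H (lst x l) (fun l' => ind (∀ y ∈ l', y ∉ x :: ρ ∧ y ∉ l))) := by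
  have h1 : W K i x (fun l => W K H (lst x l) (fun l' => ind (∀ y ∈ l', y ∉ x :: l)))
      - W K i x (fun l => W K H (lst x l) (fun l' => ind (∃ y ∈ l', y ∈ x :: ρ)))
      ≤ W K i x (fun l => W K H (lst x l) (fun l' => ind (∀ y ∈ l', y ∉ x :: ρ ∧ y ∉ l))) := by
    rw [← W_sub]
    refine W_mono K _ _ fun l _ => ?_
    rw [← W_sub]
    refine W_mono K _ _ fun l' _ => ?_
    refine le_trans (B2_ind_all_ge l' (x :: ρ) (x :: l)) ?_
    apply ind_mono
    intro h y hy
    refine ⟨(h y hy).1, fun hyl => (h y hy).2 (List.mem_cons_of_mem _ hyl)⟩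
  rw [cut_prob] at h1
  have h2 : 1 / (2 * θ) ≤ Rc K H i x := Rc_lower hP H i x hH hi
  have h3 : W K i x (fun l => W K H (lst x l) (fun l' => ind (∃ y ∈ l', y ∈ x :: ρ)))
      ≤ ((ρ.length : ℝ) + 1) * (θ / ((i : ℝ) + 2)) := by
    have h4 : W K i x (fun l => W K H (lst x l) (fun l' => ind (∃ y ∈ l', y ∈ x :: ρ)))
        ≤ W K i x (fun l => ∑ j ∈ Finset.range H,
          W K (j + 1) (lst x l) (fun l' => ind (lst (lst x l) l' ∈ x :: ρ))) :=
      W_mono K _ _ fun l _ => B2_hit H (x :: ρ) (lst x l)
    rw [W_sum] at h4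
    have h5 : ∀ j ∈ Finset.range H, W K i x (fun l =>
        W K (j + 1) (lst x l) (fun l' => ind (lst (lst x l) l' ∈ x :: ρ)))
        ≤ ((ρ.length : ℝ) + 1) * cc K (i + (j + 1)) := by
      intro j _
      have h6 : W K i x (fun l =>
          W K (j + 1) (lst x l) (fun l' => ind (lst (lst x l) l' ∈ x :: ρ)))
          = W K (i + (j + 1)) x (fun l => ind (lst x l ∈ x :: ρ)) := by
        rw [W_split K i (j + 1) x]
        refine W_congr K _ _ fun l _ => ?_
        refine W_congr K _ _ fun l' _ => ?_
        rw [lst_append]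
      rw [h6]
      have h7 := W_ind_mem_le K (i + (j + 1)) x (x :: ρ) (cc K (i + (j + 1)))
        (fun y => pt_le_cc K _ x y)
      simpa using h7
    have h8 := h4.trans (Finset.sum_le_sum h5)
    rw [← Finset.mul_sum] at h8
    refine h8.trans ?_
    have h9 : ∑ j ∈ Finset.range H, cc K (i + (j + 1)) = ∑ t ∈ Finset.Ico (i + 1) (i + 1 + H), cc K t := by
      rw [Finset.sum_Ico_eq_sum_range]
      simp only [Nat.add_sub_cancel_left]
      refine Finset.sum_congr rfl fun j _ => ?_
      congr 1
      ring
    have h10 : ∑ t ∈ Finset.Ico (i + 1) (i + 1 + H), cc K t ≤ θ / (((i + 1 : ℕ) : ℝ) + 1) := by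
      apply cc_tail_le hP
      omega
    rw [h9]
    have h11 : (((i + 1 : ℕ) : ℝ) + 1) = (i : ℝ) + 2 := by push_cast; ring
    rw [h11] at h10
    exact mul_le_mul_of_nonneg_left h10 (by positivity)
  linarith

omit [Fintype V] in
/-- a cut time strictly increases the length of the state -/
theorem B2_cut_lt (x : V) (l1 l2 : List V) (hl2 : l2 ≠ [])
    (h : ∀ y ∈ l2, y ∉ x :: l1) :
    (run [x] l1).length < (run [x] (l1 ++ l2)).length := by
  have h1 : ∀ y ∈ l2, y ∉ run [x] l1 := by
    intro y hy hy2
    rcases mem_run hy2 with h3 | h3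
    · exact h y hy (by rw [List.mem_singleton] at h3; rw [h3]; exact List.mem_cons_self)
    · exact h y hy (List.mem_cons_of_mem _ h3)
  have h2 : run [x] l1 <:+ run (run [x] l1) l2 := suffix_run (List.suffix_refl _) h1
  rw [← run_append] at h2
  refine lt_of_le_of_ne h2.length_le ?_
  intro heq
  have h3 : run [x] l1 = run [x] (l1 ++ l2) := h2.eq_of_length heq
  obtain ⟨τ, hτ⟩ := run_head x [] (l1 ++ l2)
  have h4 : lst x (l1 ++ l2) ∈ run [x] l1 := by
    rw [h3, hτ]
    exact List.mem_cons_self
  have h5 : lst x (l1 ++ l2) ∈ l2 := by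
    obtain ⟨m, z, rfl⟩ : ∃ m z, l2 = m ++ [z] := by
      rcases List.eq_nil_or_concat l2 with h | ⟨m, z, h⟩
      · exact absurd h hl2
      · exact ⟨m, z, by simpa using h⟩
    rw [← List.append_assoc, lst_concat]
    simp
  exact h1 _ h5 h4

omit [Fintype V] in
/-- number of range cut times is at most the length of the loop erasure -/
theorem B2_cuts_le (x : V) (l : List V) :
    ∑ s ∈ Finset.range l.length, ind (∀ y ∈ l.drop s, y ∉ x :: l.take s) ≤ (lel x l : ℝ) := by
  classical
  set C := (Finset.range l.length).filter (fun s => ∀ y ∈ l.drop s, y ∉ x :: l.take s) with hC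
  have h1 : ∑ s ∈ Finset.range l.length, ind (∀ y ∈ l.drop s, y ∉ x :: l.take s) = (C.card : ℝ) := by
    rw [hC, Finset.card_filter]
    push_cast
    refine Finset.sum_congr rfl fun s _ => ?_
    by_cases hp : ∀ y ∈ l.drop s, y ∉ x :: l.take s
    · rw [ind_true hp, if_pos hp]
    · rw [ind_false hp, if_neg hp]
  rw [h1]
  have h2 : C.card ≤ (Finset.Ico 1 (lel x l + 1)).card := by
    apply Finset.card_le_card_of_injOn (fun s => (run [x] (l.take s)).length)
    · intro s hs
      rw [Finset.mem_coe, hC, Finset.mem_filter, Finset.mem_range] at hs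
      simp only [Finset.coe_Ico, Set.mem_Ico]
      constructor
      · rw [run_single_length]
        omega
      · have := B2_cut_lt x (l.take s) (l.drop s) (by
          intro h0
          rw [List.drop_eq_nil_iff] at h0
          omega) hs.2
        rw [List.take_append_drop, run_single_length x l] at this
        exact this
    · -- strictly monotone on cut times
      have key : ∀ s ∈ C, ∀ s' ∈ C, s < s' →
          (run [x] (l.take s)).length < (run [x] (l.take s')).length := by
        intro s hs s' hs' hlt
        rw [hC, Finset.mem_filter, Finset.mem_range] at hs hs'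
        have h3 : l.take s' = l.take s ++ (l.take s').drop s := by
          have h30 : (l.take s').take s = l.take s := by
            rw [List.take_take]
            congr 1
            omega
          rw [← h30, List.take_append_drop]
        have h4 : (l.take s').drop s ≠ [] := by
          intro h0
          rw [List.drop_eq_nil_iff, List.length_take] at h0
          omega
        have h5 : ∀ y ∈ (l.take s').drop s, y ∉ x :: l.take s := by
          intro y hy
          apply hs.2 y
          rw [List.drop_take] at hy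
          exact List.mem_of_mem_take hy
        have h6 := B2_cut_lt x (l.take s) ((l.take s').drop s) h4 h5
        rw [← h3] at h6
        exact h6
      intro s hs s' hs' heq
      rcases lt_trichotomy s s' with hlt | hlt | hlt
      · have := key s hs s' hs' hlt
        simp only at heq
        omega
      · exact hlt
      · have := key s' hs' s hs hlt
        simp only at heq
        omega
  rw [Nat.card_Ico] at h2
  have : C.card ≤ lel x l := by omega
  exact_mod_cast this

/-- expected length of the loop erasure: |LE X[0,T]| ≥ number of range cut times s < T -/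
theorem lel_lower (hP : Par K θ h) (T : ℕ) (x : V) (hT : 4 * T ≤ Nat.sqrt (Fintype.card V)) :
    (T : ℝ) / (2 * θ) ≤ W K T x (fun l => (lel x l : ℝ)) := by
  have h1 : W K T x (fun l => ∑ s ∈ Finset.range T, ind (∀ y ∈ l.drop s, y ∉ x :: l.take s))
      ≤ W K T x (fun l => (lel x l : ℝ)) := by
    refine W_mono K _ _ fun l hl => ?_
    have := B2_cuts_le x l
    rw [hl] at this
    exact this
  refine le_trans ?_ h1
  rw [W_sum]
  have h2 : ∀ s ∈ Finset.range T, 1 / (2 * θ)
      ≤ W K T x (fun l => ind (∀ y ∈ l.drop s, y ∉ x :: l.take s)) := by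
    intro s hs
    rw [Finset.mem_range] at hs
    have h3 : W K T x (fun l => ind (∀ y ∈ l.drop s, y ∉ x :: l.take s)) = Rc K (T - s) s x := by
      rw [← cut_prob]
      have h4 : T = s + (T - s) := by omega
      conv_lhs => rw [h4]
      rw [W_split K s (T - s) x]
      refine W_congr K _ _ fun l hl => ?_
      refine W_congr K _ _ fun l' _ => ?_
      have h5 : (l ++ l').drop s = l' := by rw [← hl]; exact List.drop_left
      have h6 : (l ++ l').take s = l := by rw [← hl]; exact List.take_left
      rw [h5, h6]
    rw [h3]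
    exact Rc_lower hP (T - s) s x (by omega) (by omega)
  have h7 := Finset.card_nsmul_le_sum (Finset.range T) _ (1 / (2 * θ)) h2
  rw [Finset.card_range, nsmul_eq_mul] at h7
  calc (T : ℝ) / (2 * θ) = (T : ℝ) * (1 / (2 * θ)) := by ring
    _ ≤ _ := h7

end Pool.Agent.helper20.HP
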